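import Pool.Agent.N85.WM.Fin
import Pool.Agent.R674.KB.Main
import Pool.Agent.Y63.NV.Krc

/-!
# Alternating sums modulo `p`: the differences `l - w` of the stabilisers
-/

set_option autoImplicit false

open scoped Classical BigOperators

noncomputable section

namespace Pool.Agent.N85.KM

open Pool.Agent.Y63.NV
open Pool.Agent.Y63.KR (IsPChain chainStabilizer alternatingSum conjSub chainSetoid)
open Pool.Agent.Y63.AWC (IsIrreducibleCharacter pSubgroupSetoid)
open Pool.Agent.N85.WM (YS cvS wsum_top lsum_top)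

section

variable {p : ℕ} {F : Type} [Field F] (red : integralClosure ℤ ℂ →+* F)

/-- the difference of the numbers of irreducible traces and of weights with the given value of the
central character -/
def dl (p : ℕ) {F : Type} [Field F] (red : integralClosure ℤ ℂ →+* F) {G : Type} [Group G]
    (z : G → F) (c : F) : ℤ :=
  (Lnum (⊤ : Subgroup G) ⊤ z c : ℤ) - (Nat.card {y : YS p G // cvS red y z = c} : ℤ)

theorem card_dl {G : Type} [Group G] [Finite G] {z : G → F} (hz : IsClassFun z) (c : F) :
    (Nat.card G : ℤ) * dl p red z c =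
      Lsum (⊤ : Subgroup G) ⊤ z c - Wsum p red (⊤ : Subgroup G) ⊤ z c := by
  rw [lsum_top, wsum_top red hz]
  unfold dl
  ring

/-- invariance under isomorphisms: weights -/
theorem wsum_iso {H K : Type} [Group H] [Group K] [Finite H] [Finite K] (e : H ≃* K) {z : K → F}
    (hz : IsClassFun z) (c : F) :
    Wsum p red (⊤ : Subgroup H) ⊤ (fun x => z (e x)) c = Wsum p red (⊤ : Subgroup K) ⊤ z c := by
  unfold Wsum
  rw [← finsum_comp_equiv e.mapSubgroup.toEquiv]
  refine finsum_congr fun Q => ?_
  have hQ : (e.mapSubgroup.toEquiv Q : Subgroup K) = Q.map e.toMonoidHom := rfl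
  rw [hQ]
  have hmem : ∀ x : H, e x ∈ Q.map e.toMonoidHom ↔ x ∈ Q := by
    intro x
    constructor
    · rintro ⟨y, hy, hxy⟩
      have : y = x := e.injective hxy
      rwa [← this]
    · intro hx
      exact ⟨x, hx, rfl⟩
  have hN : ∀ x : H, e x ∈ Subgroup.normalizer ((Q.map e.toMonoidHom : Subgroup K) : Set K) ↔
      x ∈ Subgroup.normalizer (Q : Set H) := by
    intro x
    rw [Subgroup.mem_normalizer_iff, Subgroup.mem_normalizer_iff]
    constructor
    · intro h w
      have h1 := h (e w)
      rw [← map_mul, ← map_inv, ← map_mul, hmem, hmem] at h1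
      exact h1
    · intro h w
      obtain ⟨v, rfl⟩ := e.surjective w
      rw [← map_mul, ← map_inv, ← map_mul, hmem, hmem]
      exact h v
  have hpg : IsPGroup p (Q.map e.toMonoidHom) ↔ IsPGroup p Q := by
    have e1 : Q ≃* Q.map e.toMonoidHom := e.subgroupMap Q
    exact ⟨fun h => h.of_equiv e1.symm, fun h => h.of_equiv e1⟩
  by_cases h : IsPGroup p Q
  · rw [if_pos ⟨h, le_top, top_sup_eq _⟩, if_pos ⟨hpg.mpr h, le_top, top_sup_eq _⟩]
    have hmN : ((⊤ : Subgroup H) ⊓ Subgroup.normalizer (Q : Set H)).map e.toMonoidHom =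
        (⊤ : Subgroup K) ⊓ Subgroup.normalizer ((Q.map e.toMonoidHom : Subgroup K) : Set K) := by
      ext x
      obtain ⟨v, rfl⟩ := e.surjective x
      rw [Subgroup.mem_inf]
      constructor
      · rintro ⟨y, hy, hxy⟩
        have : y = v := e.injective hxy
        subst this
        exact ⟨trivial, (hN y).mpr hy.2⟩
      · rintro ⟨-, h2⟩
        exact ⟨v, ⟨trivial, (hN v).mp h2⟩, rfl⟩
    let ε : ((⊤ : Subgroup H) ⊓ Subgroup.normalizer (Q : Set H) : Subgroup H) ≃*
        ((⊤ : Subgroup K) ⊓ Subgroup.normalizer ((Q.map e.toMonoidHom : Subgroup K) : Set K) :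
          Subgroup K) := (e.subgroupMap _).trans (MulEquiv.subgroupCongr hmN)
    have hε : ∀ x, ((ε x : _) : K) = e (x : H) := fun x => rfl
    rw [Nat.card_congr ε.toEquiv]
    congr 2
    refine Pool.Agent.Y624.NV.nw_congr p red ε (fun x => ?_) (fun x => ?_)
      (fun g x => hz g x) c
    · rw [Subgroup.mem_subgroupOf, Subgroup.mem_subgroupOf, hε, hmem]
    · rw [hε]
  · rw [if_neg fun h' => h h'.1, if_neg fun h' => h (hpg.mp h'.1)]

/-- invariance under isomorphisms: traces -/
theorem lnum_iso {H K : Type} [Group H] [Group K] (e : H ≃* K) (z : K → F) (c : F) :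
    Lnum (⊤ : Subgroup H) ⊤ (fun x => z (e x)) c = Lnum (⊤ : Subgroup K) ⊤ z c := by
  refine Pool.Agent.Y210.NV2.lnum_congr _ _ _ _ _ _ c
    ((Subgroup.topEquiv.trans e).trans Subgroup.topEquiv.symm) (fun _ => rfl) fun φ => ⟨?_, ?_⟩
  · intro h g _ x y hxy
    refine h (e g) trivial _ _ ?_
    change e (y : H) = e g * e (x : H) * (e g)⁻¹
    rw [hxy, map_mul, map_mul, map_inv]
  · intro h g _ x y hxy
    obtain ⟨g', rfl⟩ := e.surjective g
    have h1 := h g' trivial ⟨e.symm x, trivial⟩ ⟨e.symm y, trivial⟩ (by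
      change e.symm y = g' * e.symm x * g'⁻¹
      rw [hxy, map_mul, map_mul, map_inv, e.symm_apply_apply])
    have e2 : ∀ x : (⊤ : Subgroup K),
        ((Subgroup.topEquiv.trans e).trans Subgroup.topEquiv.symm) ⟨e.symm x, trivial⟩ = x := by
      intro x
      apply Subtype.ext
      exact e.apply_symm_apply _
    beta_reduce at h1
    rw [e2, e2] at h1
    exact h1

theorem dl_iso {H K : Type} [Group H] [Group K] [Finite H] [Finite K] (e : H ≃* K) {z : K → F}
    (hz : IsClassFun z) (c : F) : dl p red (fun x => z (e x)) c = dl p red z c := by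
  have hz' : IsClassFun (fun x : H => z (e x)) := by
    intro g x
    change z (e (g * x * g⁻¹)) = z (e x)
    rw [map_mul, map_mul, map_inv]
    exact hz _ _
  have h1 := wsum_iso (p := p) red e hz c
  rw [wsum_top red hz', wsum_top red hz, Nat.card_congr e.toEquiv] at h1
  have h2 : (Nat.card K : ℤ) ≠ 0 := by exact_mod_cast (Nat.card_pos (α := K)).ne'
  unfold dl
  rw [lnum_iso e z c, mul_left_cancel₀ h2 h1]

/-- invariance under conjugation -/
theorem dl_conj {Γ : Type} [Group Γ] [Finite Γ] {z : Γ → F} (hz : IsClassFun z) (c : F) (g : Γ)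
    (H : Subgroup Γ) :
    dl p red (fun x : conjSub g H => z x) c = dl p red (fun x : H => z x) c := by
  let e : H ≃* conjSub g H := (MulAut.conj g).subgroupMap H
  have he : ∀ x : H, ((e x : conjSub g H) : Γ) = g * x * g⁻¹ := fun x => rfl
  have h1 := dl_iso (p := p) red e (z := fun x : conjSub g H => z x) (fun a x => hz a x) c
  rw [← h1]
  congr 1
  funext x
  rw [he, hz]

end

section

variable {p : ℕ} [Fact p.Prime] {F : Type} [Field F] [IsAlgClosed F] [CharP F p]
  {Γ : Type} [Group Γ] [Finite Γ]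

/-- the difference for a subgroup -/
theorem dl_sub (red : integralClosure ℤ ℂ →+* F) {z : Γ → F} (hz : IsClassFun z) (c : F)
    (H : Subgroup Γ) :
    Lsum ⊤ H (cut z H) c - Wsum p red ⊤ H z c =
      (Nat.card H : ℤ) * dl p red (fun x : H => z x) c := by
  rw [parts.trl F Γ ⊤ H (cut z H) c (top_sup_eq H),
    Pool.Agent.Y624.NV.trn p F red Γ ⊤ H z c (top_sup_eq H) (fun h _ x => hz h x),
    Subgroup.top_subgroupOf]
  have e1 : (fun x : H => cut z H x) = fun x : H => z x := by
    funext x
    unfold cut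
    rw [if_pos x.2]
  rw [e1]
  exact (card_dl (p := p) red (G := H) (z := fun x : H => z x) (fun g x => hz g x) c).symm

/-- the alternating sum of the numbers of ordinary characters as the alternating sum of the
differences -/
theorem kap (red : integralClosure ℤ ℂ →+* F) {z : Γ → F} (hz : IsClassFun z) (c : F) :
    (∑ᶠ σ : {σ : Set (Subgroup Γ) // IsPChain p σ}, (-1) ^ σ.1.ncard *
        ((Nat.card (chainStabilizer σ.1) : ℤ) *
          Knum red (fun x : chainStabilizer σ.1 => z x) c)) -
      (Nat.card Γ : ℤ) * Nw p red (⊥ : Subgroup Γ) z c =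
    (Nat.card Γ : ℤ) * alternatingSum p Γ (fun H => dl p red (fun x : H => z x) c) := by
  have h1 := Pool.Agent.Y171.NV.card_mul_alt (p := p) (G := Γ)
    (fun H => dl p red (fun x : H => z x) c) (fun g H => dl_conj red hz c g H)
  have h2 := ksum_sub (p := p) Pool.Agent.R674.KB.kdimh Pool.Agent.R674.KB.kfilt red hz c
  refine h2.trans (Eq.trans ?_ h1.symm)
  refine finsum_congr fun σ => ?_
  exact congrArg _ (dl_sub red hz c _)

/-- quotients by normal `p`-subgroups -/
theorem dl_push (red : integralClosure ℤ ℂ →+* F) {z : Γ → F} (hz : IsClassFun z) (c : F)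
    (M : Subgroup Γ) [M.Normal] (hM : IsPGroup p M) :
    IsClassFun (push M z) ∧ dl p red z c = dl p red (push M z) c := by
  have hz' : InZ (⊤ : Subgroup Γ) z := ⟨hz, fun x hx => absurd (Subgroup.mem_top x) hx⟩
  obtain ⟨h1, h2⟩ := parts.lq p F Γ ⊤ M z hM hz' c
  have h3 := parts.nq p F red Γ ⊤ M z hM hz' c
  have e1 : (⊤ : Subgroup Γ).map (QuotientGroup.mk' M) = ⊤ :=
    Subgroup.map_top_of_surjective _ (QuotientGroup.mk'_surjective M)
  rw [e1] at h1 h2 h3
  refine ⟨h1.conj, ?_⟩
  have h4 := card_dl (p := p) red hz c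
  have h5 := card_dl (p := p) red h1.conj c
  have h6 := Subgroup.card_eq_card_quotient_mul_card_subgroup M
  rw [h2, h3, ← mul_sub, ← h5, ← mul_assoc] at h4
  have h7 : (Nat.card Γ : ℤ) = Nat.card M * Nat.card (Γ ⧸ M) := by
    rw [h6]
    push_cast
    ring
  rw [← h7] at h4
  have h8 : (Nat.card Γ : ℤ) ≠ 0 := by exact_mod_cast (Nat.card_pos (α := Γ)).ne'
  exact mul_left_cancel₀ h8 h4

end

end Pool.Agent.N85.KM
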